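import Mathlib
import Pool.Agent.Lib.MP_0da313_nt.CM.Main

namespace Pool.Agent.Results.MP_bca3e5_nt.FixedSetChenMaynard

open Classical in
/-- For every FIXED admissible set `A` of `s ≥ 1` positive integers: a lower bound of the order of
magnitude asked for in Q1 for the number of primes `n ≤ x` such that many of the numbers `a n + 1`
have at most two prime factors and all of them are almost primes. There is an absolute constant
`c₀ > 0` and for every `s` there are `B` and `c > 0`, such that for every admissible set `A` of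
`s` positive integers, every nonempty `A' ⊆ A` and every large `x`, at least
`c * x / (log x)^(s+1)` of the primes `n ≤ x` have the following property: at least
`max(1, c₀ * log |A'|)` of the numbers `a n + 1`, `a ∈ A'`, have at most two prime factors, and for
every `a ∈ A` all prime factors of `a n + 1` are larger than `x^(1/B)` and there are at most `B` of
them (all counted with multiplicity). -/
theorem result : ∃ c₀ : ℝ, 0 < c₀ ∧ ∀ s : ℕ, 1 ≤ s → ∃ (B : ℕ) (c : ℝ), 0 < c ∧
    ∀ A : Finset ℕ, A.card = s → (∀ a ∈ A, 0 < a) →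
    (¬ ∃ p : ℕ, p.Prime ∧ ∀ n : ℕ, 1 ≤ n → p ∣ n * ∏ a ∈ A, (a * n + 1)) →
    ∀ A' : Finset ℕ, A' ⊆ A → A'.Nonempty → ∃ x₀ : ℝ, ∀ x : ℝ, x₀ ≤ x →
    c * x / (Real.log x) ^ (s + 1) ≤
      (((Finset.range (⌊x⌋₊ + 1)).filter (fun n : ℕ => n.Prime ∧
        c₀ * Real.log A'.card ≤ ((A'.filter (fun a =>
          ArithmeticFunction.cardFactors (a * n + 1) ≤ 2)).card : ℝ) ∧
        1 ≤ (A'.filter (fun a => ArithmeticFunction.cardFactors (a * n + 1) ≤ 2)).card ∧
        ∀ a ∈ A, ArithmeticFunction.cardFactors (a * n + 1) ≤ B ∧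
          ∀ p ∈ (a * n + 1).primeFactors, x < (p : ℝ) ^ B)).card : ℝ) :=
  Pool.Agent.CM.C.h_cor

end Pool.Agent.Results.MP_bca3e5_nt.FixedSetChenMaynard
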