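import Mathlib
import Pool.Agent.Lib.MP_bca3e5_nt.IS.All

namespace Pool.Agent.Results.MP_bca3e5_nt.InfiniteSets

/-- Infinite sets of coefficients all of whose finite subsets are good. Every infinite set `C` of positive
even integers has an infinite subset `B` such that for every finite set `A ⊆ B` (of any size):
(i) there are infinitely many integers `n > 1` with at most two prime factors (counted with multiplicity),
all prime factors `p` of `n` satisfying `n < p ^ 12`, such that `a n + 1` is PRIME for all `a ∈ A`;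
(ii) there are infinitely many PRIMES `n` such that for all `a ∈ A` the number `a n + 1` has at most two
prime factors (counted with multiplicity), all of them satisfying `n < p ^ 12`. -/
theorem result : ∀ C : Set ℕ, C.Infinite → (∀ a ∈ C, 0 < a ∧ Even a) →
    ∃ B : Set ℕ, B ⊆ C ∧ B.Infinite ∧ ∀ A : Finset ℕ, (A : Set ℕ) ⊆ B →
    {n : ℕ | 1 < n ∧ ArithmeticFunction.cardFactors n ≤ 2 ∧
      (∀ p : ℕ, p.Prime → p ∣ n → n < p ^ 12) ∧ ∀ a ∈ A, (a * n + 1).Prime}.Infinite ∧
    {n : ℕ | n.Prime ∧ ∀ a ∈ A, ArithmeticFunction.cardFactors (a * n + 1) ≤ 2 ∧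
      ∀ p : ℕ, p.Prime → p ∣ a * n + 1 → n < p ^ 12}.Infinite :=
  Pool.Agent.IS.h_fin

end Pool.Agent.Results.MP_bca3e5_nt.InfiniteSets
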