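import Mathlib
import Pool.Agent.Lib.MP_bca3e5_nt.RC.Main

namespace Pool.Agent.Results.MP_bca3e5_nt.PrimesWithAlmostPrimeIndex

open Classical in
/-- For every FIXED admissible set `A` of `s ≥ 1` positive integers: a lower bound of the order of
magnitude asked for in Q1 for the number of integers `n ≤ x` with at most two prime factors such that
many of the numbers `a n + 1` are PRIME and all of them are almost primes. There is an absolute constant
`c₀ > 0` and for every `s` there are `B` and `c > 0`, such that for every admissible set `A` of `s`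
positive integers, every nonempty `A' ⊆ A` and every large `x`, at least `c * x / (log x)^(s+1)` of the
integers `1 < n ≤ x` have the following property: `n` has at most two prime factors (counted with
multiplicity), both larger than `x^(1/12)`, at least `max(1, c₀ * log |A'|)` of the numbers `a n + 1`,
`a ∈ A'`, are prime, and for every `a ∈ A` all prime factors of `a n + 1` are larger than `x^(1/B)` and
there are at most `B` of them (counted with multiplicity). -/
theorem result : ∃ c₀ : ℝ, 0 < c₀ ∧ ∀ s : ℕ, 1 ≤ s → ∃ (B : ℕ) (c : ℝ), 0 < c ∧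
    ∀ A : Finset ℕ, A.card = s → (∀ a ∈ A, 0 < a) →
    (¬ ∃ p : ℕ, p.Prime ∧ ∀ n : ℕ, 1 ≤ n → p ∣ n * ∏ a ∈ A, (a * n + 1)) →
    ∀ A' : Finset ℕ, A' ⊆ A → A'.Nonempty → ∃ x₀ : ℝ, ∀ x : ℝ, x₀ ≤ x →
    c * x / (Real.log x) ^ (s + 1) ≤
      (((Finset.range (⌊x⌋₊ + 1)).filter (fun n : ℕ => 1 < n ∧
        ArithmeticFunction.cardFactors n ≤ 2 ∧
        (∀ p ∈ n.primeFactors, x < (p : ℝ) ^ 12) ∧
        c₀ * Real.log A'.card ≤ ((A'.filter (fun a => (a * n + 1).Prime)).card : ℝ) ∧
        1 ≤ (A'.filter (fun a => (a * n + 1).Prime)).card ∧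
        ∀ a ∈ A, ArithmeticFunction.cardFactors (a * n + 1) ≤ B ∧
          ∀ p ∈ (a * n + 1).primeFactors, x < (p : ℝ) ^ B)).card : ℝ) :=
  Pool.Agent.RC.h_cor

end Pool.Agent.Results.MP_bca3e5_nt.PrimesWithAlmostPrimeIndex
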