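import Mathlib
import Pool.Agent.Lib.MP_bca3e5_nt.IS.All

namespace Pool.Agent.Results.MP_bca3e5_nt.ProportionOfFixedSets

open Classical in
/-- A positive proportion of all FIXED sets of `s` coefficients is good. For every `s ≥ 1` there are `K`
and `c > 0` such that for every finite set `C` of at least `K` positive even integers at least
`c * (|C| choose s)` of the `s`-element sets `A ⊆ C` have the following property: for infinitely many `N`
at least `c N` of the numbers `k < N` satisfy, with `x = 2 ^ k`,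
(i) at least `c x / k ^ K` of the integers `2 ≤ n ≤ x` have at most two prime factors (counted with
multiplicity), all of them larger than `x^(1/12)`, and all `a n + 1`, `a ∈ A`, are PRIME;
(ii) at least `c x / k ^ K` of the integers `2 ≤ n ≤ x` are PRIME and all `a n + 1`, `a ∈ A`, have at most
two prime factors (counted with multiplicity), all of them larger than `x^(1/K)`. -/
theorem result : ∀ s : ℕ, 1 ≤ s → ∃ (K : ℕ) (c : ℝ), 0 < c ∧
    ∀ C : Finset ℕ, K ≤ C.card → (∀ a ∈ C, 0 < a ∧ Even a) →
    c * (C.card.choose s) ≤ (((C.powersetCard s).filter (fun A =>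
      ∃ᶠ N : ℕ in Filter.atTop, c * N ≤ (((Finset.range N).filter (fun k : ℕ =>
        c * 2 ^ k / (k : ℝ) ^ K ≤ (((Finset.Icc 2 (2 ^ k)).filter (fun n : ℕ =>
          ArithmeticFunction.cardFactors n ≤ 2 ∧
          (∀ p ∈ n.primeFactors, 2 ^ k < p ^ 12) ∧ ∀ a ∈ A, (a * n + 1).Prime)).card : ℝ) ∧
        c * 2 ^ k / (k : ℝ) ^ K ≤ (((Finset.Icc 2 (2 ^ k)).filter (fun n : ℕ => n.Prime ∧
          ∀ a ∈ A, ArithmeticFunction.cardFactors (a * n + 1) ≤ 2 ∧
            ∀ p ∈ (a * n + 1).primeFactors, 2 ^ k < p ^ K)).card : ℝ))).card : ℝ))).card : ℝ) :=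
  Pool.Agent.IS.h_pos2

end Pool.Agent.Results.MP_bca3e5_nt.ProportionOfFixedSets
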